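import Pool.Agent.Q235.D2.Fin

/-!
# Localization near the band edges in dimension two, uniform disorder

For the Anderson model `Δ_ω = -Δ + ω` on `ℤ²` with iid `ω_j` uniform on `[-c, c]`, `c` small:
exponential localization (in particular purely singular spectrum) at all energies at distance at
least `K c² log (1/c)` from `[0, 8]`.
-/

set_option autoImplicit false

open scoped BigOperators ENNReal
open MeasureTheory Filter

namespace Pool.Agent.Results.MP_562b47_mp.EdgeDimTwo

/-- the uniform law on `[-c, c]` -/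
noncomputable def unif (c : ℝ) : Measure ℝ :=
  ENNReal.ofReal (1 / (2 * c)) • volume.restrict (Set.Icc (-c) c)

/-- `(Δ_ω u)(j) = -∑_{|n|=1} (u(j+n) - u(j)) + ω_j u(j)` -/
noncomputable def H {d : ℕ} (ω : (Fin d → ℤ) → ℝ) (u : (Fin d → ℤ) → ℂ) (j : Fin d → ℤ) : ℂ :=
  -∑ i : Fin d, ((u (j + Pi.single i 1) - u j) + (u (j - Pi.single i 1) - u j)) + (ω j : ℂ) * u j

/-- square summable functions -/
def SqSummable {d : ℕ} (u : (Fin d → ℤ) → ℂ) : Prop := Summable fun x => ‖u x‖ ^ 2

/-- `μ` is the spectral measure of the vector `g`: a finite measure whose Borel transform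
`∫ (E - z)⁻¹ dμ(E)` is `⟨g, (H - z)⁻¹ g⟩` for all non-real `z` -/
def IsSpectralMeasure {d : ℕ} (A : ((Fin d → ℤ) → ℂ) → (Fin d → ℤ) → ℂ) (g : (Fin d → ℤ) → ℂ)
    (μ : Measure ℝ) : Prop :=
  IsFiniteMeasure μ ∧ ∀ z : ℂ, z.im ≠ 0 → ∃ u : (Fin d → ℤ) → ℂ, SqSummable u ∧
    (∀ x, A u x - z * u x = g x) ∧ ∫ E : ℝ, ((E : ℂ) - z)⁻¹ ∂μ = ∑' x, (starRingEnd ℂ) (g x) * u x

/-- exponential localization of the operator `A` at the energies in `S`, with rate `m`:
every polynomially bounded solution of `A ψ = E ψ`, `E ∈ S`, decays exponentially with rate `m`, and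
the spectral measures are pure point in `S` (carried there by a countable set) -/
def Localized {d : ℕ} (A : ((Fin d → ℤ) → ℂ) → (Fin d → ℤ) → ℂ) (S : Set ℝ) (m : ℝ) : Prop :=
  (∀ E ∈ S, ∀ ψ : (Fin d → ℤ) → ℂ, (∃ (C : ℝ) (n : ℕ), ∀ x, ‖ψ x‖ ≤ C * (1 + ‖x‖) ^ n) →
    (∀ x, A ψ x = (E : ℂ) * ψ x) → ∃ C : ℝ, ∀ x, ‖ψ x‖ ≤ C * Real.exp (-(m * ‖x‖))) ∧
  ∃ N : Set ℝ, N.Countable ∧ ∀ (g : (Fin d → ℤ) → ℂ) (μ : Measure ℝ), SqSummable g →
    IsSpectralMeasure A g μ → μ (S \ N) = 0

theorem H_eq {d : ℕ} (ω : (Fin d → ℤ) → ℝ) :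
    H ω = Pool.Agent.H4R2.LO.Hg (-1) (fun x => ω x + 2 * d) := by
  funext u x
  unfold H Pool.Agent.H4R2.LO.Hg
  have h : ∑ i : Fin d, ((u (x + Pi.single i 1) - u x) + (u (x - Pi.single i 1) - u x)) =
      ∑ i : Fin d, (u (x + Pi.single i 1) + u (x - Pi.single i 1)) - 2 * (d : ℂ) * u x := by
    rw [Finset.sum_add_distrib, Finset.sum_sub_distrib, Finset.sum_sub_distrib,
      Finset.sum_add_distrib]
    simp
    ring
  rw [h]
  push_cast
  ring

theorem localized_of {d : ℕ} (ω : (Fin d → ℤ) → ℝ) (S : Set ℝ) (m : ℝ) (hm : 0 < m)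
    (h : Pool.Agent.H4R2.LO.Main.Dec d (-1) (fun x => ω x + 2 * d) S m) :
    Localized (H ω) S m := by
  rw [H_eq]
  exact ⟨h, Pool.Agent.H4R2.LO.Main.pure_point (-1) (fun x => ω x + 2 * d) S m hm h⟩

theorem unif_prob (c : ℝ) (hc : 0 < c) : IsProbabilityMeasure (unif c) := by
  constructor
  unfold unif
  rw [Measure.smul_apply, Measure.restrict_apply MeasurableSet.univ, Set.univ_inter,
    Real.volume_Icc, smul_eq_mul, ← ENNReal.ofReal_mul (by positivity)]
  have : 1 / (2 * c) * (c - -c) = 1 := by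
    field_simp
    ring
  rw [this, ENNReal.ofReal_one]

theorem unif_neg (c : ℝ) : (unif c).map (fun t => -t) = unif c := by
  ext S hS
  rw [Measure.map_apply measurable_neg hS]
  unfold unif
  rw [Measure.smul_apply, Measure.smul_apply, Measure.restrict_apply (measurable_neg hS),
    Measure.restrict_apply hS, smul_eq_mul, smul_eq_mul]
  have h1 : (fun t : ℝ => -t) ⁻¹' S ∩ Set.Icc (-c) c = -(S ∩ Set.Icc (-c) c) := by
    ext t
    simp only [Set.mem_inter_iff, Set.mem_preimage, Set.mem_Icc, Set.mem_neg]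
    refine and_congr_right fun _ => ⟨fun h => ⟨by linarith [h.2], by linarith [h.1]⟩,
      fun h => ⟨by linarith [h.2], by linarith [h.1]⟩⟩
  rw [h1, Measure.measure_neg]

theorem unif_scale (c : ℝ) (hc : 0 < c) : (unif 1).map (fun t => c * t) = unif c := by
  ext S hS
  have hm : Measurable fun t : ℝ => c * t := by fun_prop
  rw [Measure.map_apply hm hS]
  unfold unif
  rw [Measure.smul_apply, Measure.smul_apply, Measure.restrict_apply (hm hS),
    Measure.restrict_apply hS, smul_eq_mul, smul_eq_mul]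
  have h1 : (fun t : ℝ => c * t) ⁻¹' S ∩ Set.Icc (-1) 1 =
      (fun t : ℝ => c * t) ⁻¹' (S ∩ Set.Icc (-c) c) := by
    ext t
    simp only [Set.mem_inter_iff, Set.mem_preimage, Set.mem_Icc]
    refine and_congr_right fun _ => ⟨fun h => ⟨by nlinarith [h.1], by nlinarith [h.2]⟩,
      fun h => ⟨by nlinarith [h.1], by nlinarith [h.2]⟩⟩
  rw [h1, Real.volume_preimage_mul_left hc.ne', ← mul_assoc, ← ENNReal.ofReal_mul (by norm_num),
    abs_of_pos (by positivity)]
  congr 2
  field_simp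

theorem law_map (d : ℕ) (μ ν : Measure ℝ) [IsProbabilityMeasure μ] (f : ℝ → ℝ)
    (hf : Measurable f) (h : μ.map f = ν) :
    (Measure.infinitePi fun _ : Fin d → ℤ => μ).map (fun ω x => f (ω x)) =
      Measure.infinitePi fun _ : Fin d → ℤ => ν := by
  have h1 := Measure.infinitePi_map_pi (μ := fun _ : Fin d → ℤ => μ)
    (f := fun _ (s : ℝ) => f s) (fun _ => hf)
  rw [h] at h1
  exact h1

/-- both edges, from the lower edge of `-Δ - 2 d + c ω` and of `-Δ - 2 d - c ω` -/
theorem both (d : ℕ) (c F r : ℝ) (hc : 0 < c) (hr : 0 < r)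
    (h : ∀ᵐ ω ∂(Measure.infinitePi fun _ : Fin d → ℤ => unif 1),
      Pool.Agent.H4R2.LO.Main.Dec d (-1) (fun x => c * ω x) (Set.Iic (-F - 2 * d)) r) :
    ∀ᵐ ω ∂(Measure.infinitePi fun _ : Fin d → ℤ => unif c),
      Localized (H ω) {E | E ≤ -F ∨ 4 * d + F ≤ E} r := by
  have hP := unif_prob 1 one_pos
  have h2 := law_map d (unif 1) (unif 1) (fun t => -t) (by fun_prop) (unif_neg 1)
  have hm2 : Measurable (fun (ω : (Fin d → ℤ) → ℝ) x => -ω x) := by fun_prop
  have hB : ∀ᵐ ω ∂(Measure.infinitePi fun _ : Fin d → ℤ => unif 1),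
      Pool.Agent.H4R2.LO.Main.Dec d (-1) (fun x => -(c * ω x)) (Set.Iic (-F - 2 * d)) r := by
    have h3 := h
    rw [← h2] at h3
    filter_upwards [ae_of_ae_map hm2.aemeasurable h3] with ω hω
    have e : (fun x => c * -ω x) = fun x => -(c * ω x) := by
      funext x
      ring
    rw [e] at hω
    exact hω
  have hC : ∀ᵐ ω ∂(Measure.infinitePi fun _ : Fin d → ℤ => unif 1),
      Localized (H fun x => c * ω x) {E | E ≤ -F ∨ 4 * d + F ≤ E} r := by
    filter_upwards [h, hB] with ω hω hω'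
    have e1 := Pool.Agent.H4R2.LO.Main.dec_shift (-1) (2 * d) _ _ r hω
    have e0 := Pool.Agent.H4R2.LO.Main.dec_stag _ _ _ r hω'
    rw [neg_neg] at e0
    have e2 := Pool.Agent.H4R2.LO.Main.dec_shift (-1) (2 * d) _ _ r
      (Pool.Agent.H4R2.LO.Main.dec_neg 1 _ _ r e0)
    simp only [neg_neg] at e2
    refine localized_of _ _ _ hr (Pool.Agent.H4R2.LO.Main.dec_mono _ _ _ _ _ _
      (Pool.Agent.H4R2.LO.Main.dec_union _ _ _ _ r e1 e2) ?_ le_rfl)
    rintro E (hE | hE)
    · left
      simp only [Set.mem_setOf_eq, Set.mem_Iic]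
      linarith
    · right
      simp only [Set.mem_setOf_eq, Set.mem_Iic]
      linarith
  have h4 := law_map d (unif 1) (unif c) (fun t => c * t) (by fun_prop) (unif_scale c hc)
  rw [← h4]
  have hm4 : MeasurableEmbedding (fun (ω : (Fin d → ℤ) → ℝ) x => c * ω x) := by
    let e : ((Fin d → ℤ) → ℝ) ≃ᵐ ((Fin d → ℤ) → ℝ) :=
      { toFun := fun ω x => c * ω x
        invFun := fun ω x => c⁻¹ * ω x
        left_inv := fun ω => by
          funext x
          simp [← mul_assoc, inv_mul_cancel₀ hc.ne']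
        right_inv := fun ω => by
          funext x
          simp [← mul_assoc, mul_inv_cancel₀ hc.ne']
        measurable_toFun := by
          change Measurable fun (ω : (Fin d → ℤ) → ℝ) x => c * ω x
          fun_prop
        measurable_invFun := by
          change Measurable fun (ω : (Fin d → ℤ) → ℝ) x => c⁻¹ * ω x
          fun_prop }
    exact e.measurableEmbedding
  rw [hm4.ae_map_iff]
  exact hC

/-- There is `K ≥ 1` such that for `0 < c ≤ 1/K` the Anderson model on `ℤ²` with iid potential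
uniform on `[-c, c]` is almost surely exponentially localized, with rate `c / (K log (1/c))`, at all
energies `E ≤ -K c² log (1/c)` and `E ≥ 8 + K c² log (1/c)`. -/
theorem result : ∃ K : ℝ, 1 ≤ K ∧ ∀ c : ℝ, 0 < c → c ≤ K⁻¹ →
    ∀ᵐ ω ∂(Measure.infinitePi fun _ : Fin 2 → ℤ => unif c),
      Localized (H ω) {E | E ≤ -(K * c ^ 2 * Real.log (1 / c)) ∨
        8 + K * c ^ 2 * Real.log (1 / c) ≤ E} (c / (K * Real.log (1 / c))) := by
  obtain ⟨K, hK, h⟩ := Pool.Agent.Q235.D2.below2 (1 / 2) (by norm_num)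
  refine ⟨2 * K, by linarith, fun c hc hcK => ?_⟩
  have hP := unif_prob 1 one_pos
  have h1 : unif 1 (Set.Icc (-1) 1)ᶜ = 0 := by
    unfold unif
    rw [Measure.smul_apply, Measure.restrict_apply measurableSet_Icc.compl, Set.compl_inter_self,
      measure_empty, smul_zero]
  have h2 : unif 1 ≤ ENNReal.ofReal (1 / 2) • (volume : Measure ℝ) := by
    unfold unif
    have e : (1 : ℝ) / (2 * 1) = 1 / 2 := by norm_num
    rw [e]
    intro s
    rw [Measure.smul_apply, Measure.smul_apply]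
    exact mul_le_mul_right (Measure.restrict_apply_le _ _) _
  have h3 : ∫ t, t ∂(unif 1) = 0 := by
    have e1 : ∫ t, t ∂(unif 1) = ∫ t, -t ∂(unif 1) := by
      conv_lhs => rw [← unif_neg 1]
      rw [integral_map measurable_neg.aemeasurable (by fun_prop)]
    rw [integral_neg] at e1
    linarith
  have hcK1 : c ≤ K⁻¹ := by
    refine hcK.trans (inv_anti₀ (by linarith) (by linarith))
  have hc2 : c ≤ 1 / 2 := by
    refine hcK.trans ?_
    rw [one_div]
    exact inv_anti₀ (by norm_num) (by linarith)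
  have hlog : 0 < Real.log (1 / c) := by
    refine Real.log_pos ?_
    rw [lt_div_iff₀ hc]
    linarith
  have h4 := h (unif 1) h1 h2 h3 c hc hcK1
  have hr : 0 < c / (2 * K * Real.log (1 / c)) := by positivity
  refine (both 2 c (2 * K * c ^ 2 * Real.log (1 / c)) _ hc hr ?_).mono fun ω hω => ?_
  · filter_upwards [h4] with ω hω
    refine Pool.Agent.H4R2.LO.Main.dec_mono _ _ _ _ _ _ hω ?_ ?_
    · intro E hE
      rw [Set.mem_Iic] at hE ⊢
      refine hE.trans (sub_le_sub_right (neg_le_neg ?_) _)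
      have : 0 ≤ K * c ^ 2 * Real.log (1 / c) := by positivity
      linarith
    · refine div_le_div_of_nonneg_left hc.le (by positivity) ?_
      have : 0 ≤ K * Real.log (1 / c) := by positivity
      linarith
  · have e : (4 : ℝ) * ((2 : ℕ) : ℝ) = 8 := by norm_num
    rw [e] at hω
    exact hω

end Pool.Agent.Results.MP_562b47_mp.EdgeDimTwo
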