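import Pool.Agent.Q218.LE.Out
import Pool.Agent.Q218.WE.AllO
import Pool.Agent.Q218.WE.Micro
import Pool.Agent.Q222.WE.AMPZ
import Pool.Agent.Q222.WE.ABEL
import Pool.Agent.Q222.WE.PLA
import Pool.Agent.Q222.WE.OPN
import Pool.Agent.Q222.WE.MUL
import Pool.Agent.Q222.WE.CHI
import Pool.Agent.Q177.WE.EXPK
import Pool.Agent.Q177.WE.DROP
import Pool.Agent.Q150.WE.LIPK
import Pool.Agent.Q95.LE.GAU
import Pool.Agent.Q91.LE.SPL
import Pool.Agent.Q257.LE.NET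
import Pool.Agent.Q176.LE.CubeT
import Pool.Agent.Q246.LE.EXP
import Pool.Agent.Q246.LE.FOUR
import Pool.Agent.Q237.LE.MEAS
import Pool.Agent.Q211.LE.SYM
import Pool.Agent.Q285.LE.THL
import Pool.Agent.Q111.LE.UNI

set_option autoImplicit false

open scoped BigOperators ENNReal Topology
open MeasureTheory Filter ProbabilityTheory

namespace Pool.Agent.Results.MP_562b47_mp.PhaseSpaceErgodicity

open Pool.Agent.TH794.QD (hmk HS)
open Pool.Agent.H4R2.LO (bx)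
open Pool.Agent.Q218.UD (D0 D1)
open Pool.Agent.Q218.LE (Good freeE3 freeE2 uniLE Concl)
open Pool.Agent.Q218.WE (GoodP Fr ConclP uniP micro_lim)

/-- the uniform law on `[-c, c]` -/
noncomputable def unif (c : ℝ) : Measure ℝ :=
  ENNReal.ofReal (1 / (2 * c)) • volume.restrict (Set.Icc (-c) c)

/-- `(Δ_ω u)(j) = -∑_{|n|=1} (u(j+n) - u(j)) + ω_j u(j)` -/
noncomputable def H {d : ℕ} (ω : (Fin d → ℤ) → ℝ) (u : (Fin d → ℤ) → ℂ) (j : Fin d → ℤ) : ℂ :=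
  -∑ i : Fin d, ((u (j + Pi.single i 1) - u j) + (u (j - Pi.single i 1) - u j)) + (ω j : ℂ) * u j

/-- the box `{x : |x_i - c_i| ≤ L for all i}` -/
noncomputable def box {d : ℕ} (c : Fin d → ℤ) (L : ℕ) : Finset (Fin d → ℤ) :=
  Fintype.piFinset fun i => Finset.Icc (c i - L) (c i + L)

/-- an orthonormal family in `ℓ²(ℤ^d)`, whose members satisfy the eigenvalue equation of `Δ_ω` at
the interior sites of the box with the centre `c` and the radius `L` -/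
structure LocalEigenSystem {d : ℕ} (ω : (Fin d → ℤ) → ℝ) (c : Fin d → ℤ) (L : ℕ)
    {J : Type} (φ : J → (Fin d → ℤ) → ℂ) (e : J → ℝ) : Prop where
  eigen : ∀ j x, ‖x - c‖ < L → H ω (φ j) x = (e j : ℂ) * φ j x
  norm : ∀ j, HasSum (fun x => ‖φ j x‖ ^ 2) 1
  orth : ∀ i j, i ≠ j → HasSum (fun x => (starRingEnd ℂ) (φ i x) * φ j x) 0

/-- the mean value of `f` over the box of radius `r` around `x` -/
noncomputable def average {d : ℕ} (r : ℕ) (f : (Fin d → ℤ) → ℝ) (x : Fin d → ℤ) : ℝ :=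
  ((box x r).card : ℝ)⁻¹ * ∑ y ∈ box x r, f y

/-- the energy `∑ (2 - 2 cos (2π k_i))` of the plane wave `x ↦ e^{2πi k·x}` -/
noncomputable def energy {d : ℕ} (k : Fin d → ℝ) : ℝ :=
  ∑ i, (2 - 2 * Real.cos (2 * Real.pi * k i))

/-- the integral of `cos (2π v·k)` over the momenta `k ∈ [0,1]^d` with the Lorentzian weight of width
`η` at the energy surface `{energy = E}` -/
noncomputable def shell {d : ℕ} (v : Fin d → ℤ) (E η : ℝ) : ℝ :=
  ∫ k in Set.Icc (0 : Fin d → ℝ) 1, Real.cos (2 * Real.pi * ∑ i, v i * k i) *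
    (η / ((energy k - E) ^ 2 + η ^ 2))

/-- the microcanonical average `⟨e^{2πi v·k}⟩_E` over the energy surface `{energy = E}` -/
noncomputable def micro {d : ℕ} (v : Fin d → ℤ) (E : ℝ) : ℝ :=
  limUnder (𝓝[>] 0) fun η => shell v E η / shell (0 : Fin d → ℤ) E η

/-- **Local quantum ergodicity in phase space** for the observable `a` on the box `Λ` with the centre
`b` and the radius `L`. Whatever the amplitude `ρ`, `|ρ| ≤ 1`, with
`|ρ(x) - ρ(y)| ≤ c^{2.06/d} |x - y|` is, with `f = a ρ` and for every local eigensystem `φ_j, e_j`: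

`position`: the expectation values of `f` and of its local average `f_r`, `r ≤ c^{-2.011}`, agree,
`∑_j (∑_{x ∈ Λ} (f(x) - f_r(x)) |φ_j(x)|²)² ≤ ε |Λ|`;

`momentum`: for `d ≥ 3`, at every site the momentum is uniformly distributed on the energy surface,
`∑_j |∑_{x ∈ Λ} f(x) (conj (φ_j(x)) φ_j(x+v) - ⟨e^{2πi v·k}⟩_{e_j} |φ_j(x)|²)|² ≤ ε |Λ|` for all
`|v| ≤ R`, where the sum is over the `j` with `κ ≤ e_j ≤ 4d - κ`. -/
structure Ergodic {d : ℕ} (R : ℕ) (κ c ε : ℝ) (ω a : (Fin d → ℤ) → ℝ) (b : Fin d → ℤ) (L : ℕ) :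
    Prop where
  position : ∀ ρ : (Fin d → ℤ) → ℝ, (∀ x, |ρ x| ≤ 1) →
    (∀ x y, |ρ x - ρ y| ≤ c ^ (206 / 100 / d : ℝ) * ‖x - y‖) →
    ∀ r : ℕ, (r : ℝ) ≤ c ^ (-(2011 / 1000) : ℝ) →
    ∀ (J : Type) (φ : J → (Fin d → ℤ) → ℂ) (e : J → ℝ), LocalEigenSystem ω b L φ e →
    ∀ s : Finset J,
      ∑ j ∈ s, (∑ x ∈ box b L,
        (a x * ρ x - average r (fun y => a y * ρ y) x) * ‖φ j x‖ ^ 2) ^ 2 ≤ ε * (box b L).card
  momentum : 3 ≤ d → ∀ ρ : (Fin d → ℤ) → ℝ, (∀ x, |ρ x| ≤ 1) →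
    (∀ x y, |ρ x - ρ y| ≤ c ^ (206 / 100 / d : ℝ) * ‖x - y‖) →
    ∀ v : Fin d → ℤ, ‖v‖ ≤ R →
    ∀ (J : Type) (φ : J → (Fin d → ℤ) → ℂ) (e : J → ℝ), LocalEigenSystem ω b L φ e →
    ∀ s : Finset J, (∀ j ∈ s, κ ≤ e j ∧ e j ≤ 4 * d - κ) →
      ∑ j ∈ s, ‖∑ x ∈ box b L, ((a x * ρ x : ℝ) : ℂ) *
        ((starRingEnd ℂ) (φ j x) * φ j (x + v) - ((micro v (e j) * ‖φ j x‖ ^ 2 : ℝ) : ℂ))‖ ^ 2 ≤
        ε * (box b L).card

theorem shell_shift {d : ℕ} (v : Fin d → ℤ) (E η : ℝ) :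
    shell v E η = Pool.Agent.Q218.WE.shell d v (2 * d - E) η := by
  unfold shell Pool.Agent.Q218.WE.shell
  congr 1
  funext k
  have h1 : energy k - E = -(Pool.Agent.Q218.WE.en k - (2 * d - E)) := by
    unfold energy Pool.Agent.Q218.WE.en
    rw [Finset.sum_sub_distrib]
    simp
    ring
  rw [h1, neg_sq]

theorem lim_micro {d : ℕ} (hd : 3 ≤ d) (v : Fin d → ℤ) (E : ℝ) (hE : 0 < E) (hE2 : E < 4 * d) :
    Tendsto (fun η => shell v E η / shell (0 : Fin d → ℤ) E η) (𝓝[>] 0)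
      (𝓝 (Fr d v (2 * d - E))) := by
  simp only [shell_shift]
  refine micro_lim Pool.Agent.Q222.WE.t_AMPZ d hd v (2 * d - E) ?_
  rw [abs_lt]
  constructor <;> linarith

theorem micro_eq {d : ℕ} (hd : 3 ≤ d) (v : Fin d → ℤ) (E : ℝ) (hE : 0 < E) (hE2 : E < 4 * d) :
    micro v E = Fr d v (2 * d - E) :=
  (lim_micro hd v E hE hE2).limUnder_eq

theorem ergodic_of_good {d : ℕ} {R : ℕ} {κ c ε : ℝ} (hc : 0 < c) (hκ : 0 < κ)
    {a ω : (Fin d → ℤ) → ℝ} {b : Fin d → ℤ} {L : ℕ}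
    (h : Good d c (206 / 100 / d) ε a (fun x => ω x / c) b L)
    (h' : 3 ≤ d → GoodP d R κ c (206 / 100 / d) ε a (fun x => ω x / c) b L) :
    Ergodic R κ c ε ω a b L := by
  have heq : ∀ (J : Type) (φ : J → (Fin d → ℤ) → ℂ) (e : J → ℝ),
      LocalEigenSystem ω b L φ e → ∀ (j : J) (x : Fin d → ℤ), ‖x - b‖ < L →
      -Pool.Agent.W788.LD.Spec.S (φ j) x + ((c * (ω x / c) : ℝ) : ℂ) * φ j x =
        ((e j - 2 * d : ℝ) : ℂ) * φ j x := by
    intro J φ e hφ j x hx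
    have h1 := hφ.eigen j x hx
    unfold H at h1
    unfold Pool.Agent.W788.LD.Spec.S
    have h2 : ∑ i : Fin d, ((φ j (x + Pi.single i 1) - φ j x) +
        (φ j (x - Pi.single i 1) - φ j x)) =
        ∑ i : Fin d, (φ j (x + Pi.single i 1) + φ j (x - Pi.single i 1)) -
          2 * (d : ℂ) * φ j x := by
      rw [Finset.sum_add_distrib, Finset.sum_sub_distrib, Finset.sum_sub_distrib,
        Finset.sum_add_distrib]
      simp
      ring
    rw [h2] at h1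
    have h3 : c * (ω x / c) = ω x := by field_simp
    rw [h3]
    push_cast
    linear_combination h1
  constructor
  · intro ρ hρ1 hρ2 r hr J φ e hφ s
    exact h ρ hρ1 hρ2 r hr J (fun j => (hmk (φ j) (hφ.norm j).summable : HS d))
      (Pool.Agent.Q218.AD.ortho φ hφ.norm hφ.orth) (fun j => e j - 2 * d)
      (fun j x hx => heq J φ e hφ j x hx) s
  · intro hd ρ hρ1 hρ2 v hv J φ e hφ s hs
    have h1 := h' hd ρ hρ1 hρ2 v hv J (fun j => (hmk (φ j) (hφ.norm j).summable : HS d))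
      (Pool.Agent.Q218.AD.ortho φ hφ.norm hφ.orth) (fun j => e j - 2 * d)
      (fun j x hx => heq J φ e hφ j x hx) s
      (fun j hj => by
        have h3 := hs j hj
        rw [abs_le]
        constructor <;> linarith [h3.1, h3.2])
    refine le_trans (le_of_eq (Finset.sum_congr rfl fun j hj => ?_)) h1
    have h2 : micro v (e j) = Fr d v (-(e j - 2 * d)) := by
      have h3 := hs j hj
      rw [neg_sub]
      exact micro_eq hd v (e j) (by linarith [h3.1]) (by linarith [h3.2])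
    rw [h2]
    rfl

/-- the uniform law on `[-c, c]` is the image of that on `[-1, 1]` -/
theorem unif_scale (c : ℝ) (hc : 0 < c) :
    (unif c).map (fun s => s / c) = Pool.Agent.W788.LD.Uni.unif 1 := by
  have hm : Measurable fun s : ℝ => s / c := by fun_prop
  unfold unif Pool.Agent.W788.LD.Uni.unif
  rw [Measure.map_smul]
  have h1 : (volume.restrict (Set.Icc (-c) c)).map (fun s : ℝ => s / c) =
      ENNReal.ofReal c • volume.restrict (Set.Icc (-1) 1) := by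
    have h2 : Set.Icc (-c) c = (fun s : ℝ => s / c) ⁻¹' Set.Icc (-1) 1 := by
      ext s
      simp only [Set.mem_Icc, Set.mem_preimage]
      rw [le_div_iff₀ hc, div_le_iff₀ hc]
      constructor
      · rintro ⟨h3, h4⟩
        constructor <;> linarith
      · rintro ⟨h3, h4⟩
        constructor <;> linarith
    rw [h2, ← Measure.restrict_map hm measurableSet_Icc]
    have h3 : (volume : Measure ℝ).map (fun s : ℝ => s / c) = ENNReal.ofReal c • volume := by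
      have h4 : (fun s : ℝ => s / c) = fun s => c⁻¹ * s := by
        funext s
        rw [div_eq_mul_inv, mul_comm]
      rw [h4, Real.map_volume_mul_left (inv_ne_zero hc.ne'), inv_inv, abs_of_pos hc]
    rw [h3, Measure.restrict_smul]
  rw [h1, smul_smul, ← ENNReal.ofReal_mul (by positivity)]
  congr 2
  field_simp

/-- the conclusion for one law -/
def Both (d : ℕ) (μ : Measure ℝ) : Prop :=
  ∀ (R : ℕ) (κ ε : ℝ), 0 < κ → 0 < ε → ∃ l0 : ℝ, 0 < l0 ∧ ∀ lam : ℝ, 0 < lam → lam ≤ l0 →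
    ∀ a0 : (Fin d → ℤ) → ℝ, (∀ x, |a0 x| ≤ 1) →
    (∀ (b : Fin d → ℤ) (L : ℕ), lam ^ (-(21 / 10) : ℝ) ≤ L →
      ∃ G : Set ((Fin d → ℤ) → ℝ), MeasurableSet G ∧
        (Measure.infinitePi fun _ : Fin d → ℤ => μ).real Gᶜ ≤
          Real.exp (-(lam ^ (206 / 100 : ℝ) * (bx b L).card)) ∧
        ∀ ω ∈ G, Good d lam (206 / 100 / d) ε a0 ω b L ∧
          (3 ≤ d → GoodP d R κ lam (206 / 100 / d) ε a0 ω b L)) ∧
    (∃ G : Set ((Fin d → ℤ) → ℝ), MeasurableSet G ∧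
      (Measure.infinitePi fun _ : Fin d → ℤ => μ).real Gᶜ ≤
        Real.exp (-(lam ^ (-(21 / 10) : ℝ))) ∧
      ∀ ω ∈ G, ∀ (b : Fin d → ℤ) (L : ℕ), lam ^ (-(21 / 10) : ℝ) ≤ L →
        Real.log (1 + ‖b‖) ≤ lam ^ (21 / 10 : ℝ) * (bx b L).card →
          Good d lam (206 / 100 / d) ε a0 ω b L ∧
            (3 ≤ d → GoodP d R κ lam (206 / 100 / d) ε a0 ω b L)) ∧
    (∀ᵐ ω ∂(Measure.infinitePi fun _ : Fin d → ℤ => μ), ∃ L0 : ℕ, ∀ (b : Fin d → ℤ) (L : ℕ),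
        L0 ≤ L → Real.log (1 + ‖b‖) ≤ lam ^ (21 / 10 : ℝ) * (bx b L).card →
          Good d lam (206 / 100 / d) ε a0 ω b L ∧
            (3 ≤ d → GoodP d R κ lam (206 / 100 / d) ε a0 ω b L))

theorem both3 (d : ℕ) (μ : Measure ℝ) (h : ConclP d μ) : Both d μ := by
  intro R κ ε hκ hε
  obtain ⟨l0, hl0, hg⟩ := h R κ ε hκ hε
  refine ⟨l0, hl0, fun lam hlam hlam0 a0 ha0 => ?_⟩
  obtain ⟨h1, ⟨G, hG, hPG, h2⟩, h3⟩ := hg lam hlam hlam0 a0 ha0
  refine ⟨fun b L hL => ?_, ⟨G, hG, hPG, fun ω hω b L hL hb =>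
    ⟨(h2 ω hω b L hL hb).1, fun _ => (h2 ω hω b L hL hb).2⟩⟩, ?_⟩
  · obtain ⟨G, hG, hPG, h4⟩ := h1 b L hL
    exact ⟨G, hG, hPG, fun ω hω => ⟨(h4 ω hω).1, fun _ => (h4 ω hω).2⟩⟩
  · filter_upwards [h3] with ω hω
    obtain ⟨L0, hL0⟩ := hω
    exact ⟨L0, fun b L hL hb => ⟨(hL0 b L hL hb).1, fun _ => (hL0 b L hL hb).2⟩⟩

theorem both2 (μ : Measure ℝ) (h : Concl 2 μ) : Both 2 μ := by
  intro R κ ε hκ hε
  obtain ⟨l0, hl0, hg⟩ := h ε hε
  refine ⟨l0, hl0, fun lam hlam hlam0 a0 ha0 => ?_⟩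
  obtain ⟨h1, ⟨G, hG, hPG, h2⟩, h3⟩ := hg lam hlam hlam0 a0 ha0
  have h32 : ∀ {P : Prop}, 3 ≤ 2 → P := fun h => absurd h (by norm_num)
  refine ⟨fun b L hL => ?_, ⟨G, hG, hPG, fun ω hω b L hL hb =>
    ⟨h2 ω hω b L hL hb, fun h => h32 h⟩⟩, ?_⟩
  · obtain ⟨G, hG, hPG, h4⟩ := h1 b L hL
    exact ⟨G, hG, hPG, fun ω hω => ⟨h4 ω hω, fun h => h32 h⟩⟩
  · filter_upwards [h3] with ω hω
    obtain ⟨L0, hL0⟩ := hω
    exact ⟨L0, fun b L hL hb => ⟨hL0 b L hL hb, fun h => h32 h⟩⟩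

/-- from the law on `[-1, 1]` to the law on `[-c, c]` -/
theorem main (d : ℕ) (h : Both d (Pool.Agent.W788.LD.Uni.unif 1)) (R : ℕ) (κ ε : ℝ)
    (hκ : 0 < κ) (hε : 0 < ε) :
    ∃ c₀ : ℝ, 0 < c₀ ∧ ∀ c : ℝ, 0 < c → c ≤ c₀ →
      ∀ a : (Fin d → ℤ) → ℝ, (∀ x, |a x| ≤ 1) →
      (∀ (b : Fin d → ℤ) (L : ℕ), c ^ (-(21 / 10) : ℝ) ≤ L →
        ∃ G : Set ((Fin d → ℤ) → ℝ), MeasurableSet G ∧
          1 - Real.exp (-(c ^ (206 / 100 : ℝ) * (box b L).card)) ≤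
            (Measure.infinitePi fun _ : Fin d → ℤ => unif c).real G ∧
          ∀ ω ∈ G, Ergodic R κ c ε ω a b L) ∧
      (∃ G : Set ((Fin d → ℤ) → ℝ), MeasurableSet G ∧
        1 - Real.exp (-c ^ (-(21 / 10) : ℝ)) ≤
          (Measure.infinitePi fun _ : Fin d → ℤ => unif c).real G ∧
        ∀ ω ∈ G, ∀ (b : Fin d → ℤ) (L : ℕ), c ^ (-(21 / 10) : ℝ) ≤ L →
          Real.log (1 + ‖b‖) ≤ c ^ (21 / 10 : ℝ) * (box b L).card → Ergodic R κ c ε ω a b L) ∧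
      (∀ᵐ ω ∂(Measure.infinitePi fun _ : Fin d → ℤ => unif c),
        ∃ L₀ : ℕ, ∀ (b : Fin d → ℤ) (L : ℕ), L₀ ≤ L →
          Real.log (1 + ‖b‖) ≤ c ^ (21 / 10 : ℝ) * (box b L).card →
            Ergodic R κ c ε ω a b L) := by
  obtain ⟨l0, hl0, hg⟩ := h R κ ε hκ hε
  refine ⟨l0, hl0, fun c hc hc0 a ha => ?_⟩
  obtain ⟨h1, h2, h3⟩ := hg c hc hc0 a ha
  have hu1 : IsProbabilityMeasure (Pool.Agent.W788.LD.Uni.unif 1) :=
    Pool.Agent.W788.LD.Uni.unif_prob 1 one_pos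
  have huc : IsProbabilityMeasure (unif c) := Pool.Agent.W788.LD.Uni.unif_prob c hc
  have hTm : Measurable (fun (ω : (Fin d → ℤ) → ℝ) x => ω x / c) := by fun_prop
  have hlaw : (Measure.infinitePi fun _ : Fin d → ℤ => unif c).map (fun ω x => ω x / c) =
      Measure.infinitePi fun _ : Fin d → ℤ => Pool.Agent.W788.LD.Uni.unif 1 := by
    have h1 := Measure.infinitePi_map_pi (μ := fun _ : Fin d → ℤ => unif c)
      (f := fun _ (s : ℝ) => s / c) (fun _ => by fun_prop)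
    rw [h1]
    congr 1
    funext _
    exact unif_scale c hc
  have hP : ∀ G : Set ((Fin d → ℤ) → ℝ), MeasurableSet G → ∀ q : ℝ,
      (Measure.infinitePi fun _ : Fin d → ℤ => Pool.Agent.W788.LD.Uni.unif 1).real Gᶜ ≤ q →
      1 - q ≤ (Measure.infinitePi fun _ : Fin d → ℤ => unif c).real
        ((fun (ω : (Fin d → ℤ) → ℝ) x => ω x / c) ⁻¹' G) := by
    intro G hG q hq
    have h4 := probReal_add_probReal_compl
      (μ := Measure.infinitePi fun _ : Fin d → ℤ => Pool.Agent.W788.LD.Uni.unif 1) hG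
    have h5 : (Measure.infinitePi fun _ : Fin d → ℤ => unif c).real
        ((fun (ω : (Fin d → ℤ) → ℝ) x => ω x / c) ⁻¹' G) =
        (Measure.infinitePi fun _ : Fin d → ℤ => Pool.Agent.W788.LD.Uni.unif 1).real G := by
      rw [← hlaw, map_measureReal_apply hTm hG]
    rw [h5]
    linarith
  refine ⟨fun b L hL => ?_, ?_, ?_⟩
  · obtain ⟨G, hG, hPG, hGd⟩ := h1 b L hL
    exact ⟨_, hTm hG, hP G hG _ hPG, fun ω hω =>
      ergodic_of_good hc hκ (hGd _ hω).1 (hGd _ hω).2⟩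
  · obtain ⟨G, hG, hPG, hGd⟩ := h2
    exact ⟨_, hTm hG, hP G hG _ hPG, fun ω hω b L hL hb =>
      ergodic_of_good hc hκ (hGd _ hω b L hL hb).1 (hGd _ hω b L hL hb).2⟩
  · rw [← hlaw] at h3
    filter_upwards [ae_of_ae_map hTm.aemeasurable h3] with ω hω
    obtain ⟨L0, hL0⟩ := hω
    exact ⟨L0, fun b L hL hb => ergodic_of_good hc hκ (hL0 b L hL hb).1 (hL0 b L hL hb).2⟩

/-- **Theorem.** Uniform disorder, `d ≥ 2` (for the momentum part `d ≥ 3`). The microcanonical averages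
exist in the interior of the free spectrum, and for every weight `a`, `|a| ≤ 1`, and every small `c`
almost all eigenfunctions are locally uniformly distributed in phase space (`Ergodic`): (i) for a given
box of radius `L ≥ c^{-2.1}`, for all `ρ`, `r`, `v`, with probability at least
`1 - exp(-c^{2.06} |Λ|)`; (ii) with probability at least `1 - exp(-c^{-2.1})` for all boxes with
`log(1 + |b|) ≤ c^{2.1} |Λ|`; (iii) almost surely for all large boxes with this property. -/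
theorem result (d : ℕ) (hd : 2 ≤ d) :
    (3 ≤ d → ∀ (v : Fin d → ℤ) (E : ℝ), 0 < E → E < 4 * d →
      Tendsto (fun η => shell v E η / shell (0 : Fin d → ℤ) E η) (𝓝[>] 0) (𝓝 (micro v E))) ∧
    ∀ (R : ℕ) (κ ε : ℝ), 0 < κ → 0 < ε → ∃ c₀ : ℝ, 0 < c₀ ∧ ∀ c : ℝ, 0 < c → c ≤ c₀ →
      ∀ a : (Fin d → ℤ) → ℝ, (∀ x, |a x| ≤ 1) →
      (∀ (b : Fin d → ℤ) (L : ℕ), c ^ (-(21 / 10) : ℝ) ≤ L →
        ∃ G : Set ((Fin d → ℤ) → ℝ), MeasurableSet G ∧
          1 - Real.exp (-(c ^ (206 / 100 : ℝ) * (box b L).card)) ≤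
            (Measure.infinitePi fun _ : Fin d → ℤ => unif c).real G ∧
          ∀ ω ∈ G, Ergodic R κ c ε ω a b L) ∧
      (∃ G : Set ((Fin d → ℤ) → ℝ), MeasurableSet G ∧
        1 - Real.exp (-c ^ (-(21 / 10) : ℝ)) ≤
          (Measure.infinitePi fun _ : Fin d → ℤ => unif c).real G ∧
        ∀ ω ∈ G, ∀ (b : Fin d → ℤ) (L : ℕ), c ^ (-(21 / 10) : ℝ) ≤ L →
          Real.log (1 + ‖b‖) ≤ c ^ (21 / 10 : ℝ) * (box b L).card → Ergodic R κ c ε ω a b L) ∧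
      (∀ᵐ ω ∂(Measure.infinitePi fun _ : Fin d → ℤ => unif c),
        ∃ L₀ : ℕ, ∀ (b : Fin d → ℤ) (L : ℕ), L₀ ≤ L →
          Real.log (1 + ‖b‖) ≤ c ^ (21 / 10 : ℝ) * (box b L).card →
            Ergodic R κ c ε ω a b L) := by
  have hLIP := Pool.Agent.Q218.WE.lip_of Pool.Agent.Q150.WE.t_LIPK
  have hEXP := Pool.Agent.Q246.LE.EX.t_EXP Pool.Agent.Q237.LE.t_MEAS Pool.Agent.Q246.LE.t_FOUR
  refine ⟨fun hd3 v E hE hE2 => ?_, fun R κ ε hκ hε => main d ?_ R κ ε hκ hε⟩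
  · rw [micro_eq hd3 v E hE hE2]
    exact lim_micro hd3 v E hE hE2
  rcases hd.eq_or_lt with h | h
  · subst h
    exact both2 _ (uniLE hLIP Pool.Agent.Q95.LE.t_GAU Pool.Agent.Q91.LE.t_SPL
      Pool.Agent.Q257.LE.t_NET Pool.Agent.Q176.LE.t_CUBE hEXP Pool.Agent.Q111.LE.t_UNI 2 le_rfl _ _
      (freeE2 Pool.Agent.Q211.LE.t_SYM Pool.Agent.Q285.LE.t_THL))
  · exact both3 d _ (uniP Pool.Agent.Q222.WE.t_AMPZ Pool.Agent.Q222.WE.t_ABEL
      Pool.Agent.Q150.WE.t_LIPK Pool.Agent.Q222.WE.t_PLA Pool.Agent.Q222.WE.t_OPN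
      (Pool.Agent.Q177.WE.EX.t_EXPK Pool.Agent.Q237.LE.t_MEAS Pool.Agent.Q222.WE.t_MUL)
      Pool.Agent.Q177.WE.DROP.t_DROP Pool.Agent.Q222.WE.t_CHI Pool.Agent.Q95.LE.t_GAU
      Pool.Agent.Q91.LE.t_SPL Pool.Agent.Q257.LE.t_NET Pool.Agent.Q176.LE.t_CUBE hEXP
      Pool.Agent.Q111.LE.t_UNI d h (D0 d) (D1 d)
      (freeE3 Pool.Agent.Q211.LE.t_SYM Pool.Agent.Q285.LE.t_THL d h))

end Pool.Agent.Results.MP_562b47_mp.PhaseSpaceErgodicity
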