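import Pool.Agent.Q291.SB.Fin

/-!
# No absolutely continuous spectrum on networks with thin cuts

Let `T` be a bounded operator with real symmetric matrix on `ℓ²(ι)`, `ι` countable, and add the
potential `a ω`, where `ω` is i.i.d. of any nondegenerate law of bounded support, for example the
uniform one, and `a` are deterministic amplitudes. The leak of a finite set `B` at its site `x` is the
norm of the part of the row `T(x, ·)` outside `B`. Say that `T` has thin cuts if for every positive
function `w` on `ι` which tends to zero at infinity, however slowly, there are finite sets `B` whose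
total cost is as small as we like, where each site pays its leak or, if the amplitude there is at
least `a₀`, the number `w x`, whichever is smaller. We prove that then, whatever the energy and the
disorder, almost surely all spectral measures of `T + a ω` are singular.

Examples. (2) Operators of finite range along a locally finite tree with countably many rays, such
that each ray passes infinitely often through bags of bounded size: all locally finite trees with
countably many ends, combs of all dimensions, strips, graphs with countably many thin ends. (3)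
One-dimensional operators with hopping of long range, decaying like `|x - y|⁻ᵅ` with `α > 3 / 2`,
also on `ℤ × Y` with infinite `Y` if the total hopping between the lines is finite; noise on sparse
blocks suffices.

Proof: The imaginary part of `G(o, o; E + i0)` is the flux through the boundary of `B`, to which the
site `x` contributes at most `|G(o, x)|` times the leak times a tight random variable. The sites
which pay their leak are controlled by a bound of weak type for square functions of boundary values
of the resolvent. The other sites are controlled since `G(o, x)` tends to zero in probability, as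
resampling of the potential at `x` shows; `w` is chosen according to the speed of this convergence.
On a tree with countably many rays one cuts the `n`-th ray at a place where `w` is below `2⁻ⁿ ε`; by
the lemma of König the part before the cuts is finite.
-/

set_option autoImplicit false

open MeasureTheory Filter Topology

namespace Pool.Agent.Results.MP_562b47_mp.ThinCuts

/-- the Hilbert space `ℓ²(ι)` -/
abbrev L2 (ι : Type) : Type := lp (fun _ : ι => ℂ) 2

/-- the bounded operators on `ℓ²(ι)` -/
abbrev Op (ι : Type) : Type := L2 ι →L[ℂ] L2 ι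

/-- the matrix entry `T(x, y)`: the value at `x` of `T` applied to the unit vector at `y` -/
noncomputable def entry {ι : Type} [DecidableEq ι] (T : Op ι) (x y : ι) : ℂ :=
  (T (lp.single 2 y (1 : ℂ))) x

/-- the matrix of `T` is real and symmetric -/
def RealSymmetric {ι : Type} [DecidableEq ι] (T : Op ι) : Prop :=
  ∀ x y, (entry T x y).im = 0 ∧ entry T x y = entry T y x

/-- `ν` has bounded support and is not a point mass -/
def IsNoise (ν : Measure ℝ) : Prop :=
  (∃ K : ℝ, ν (Set.Icc (-K) K)ᶜ = 0) ∧ ∀ r : ℝ, ν {r} ≠ 1

/-- `H` is the operator `T + a ω` -/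
def IsPerturbed {ι : Type} (T : Op ι) (a ω : ι → ℝ) (H : Op ι) : Prop :=
  ∀ (u : L2 ι) (x : ι), (H u) x = (T u) x + ((a x * ω x : ℝ) : ℂ) * u x

/-- all spectral measures of `H` are singular with respect to the Lebesgue measure -/
def PurelySingular {F : Type*} [NormedAddCommGroup F] [InnerProductSpace ℂ F]
    (H : F →L[ℂ] F) : Prop :=
  ∀ (ψ : F) (μ : Measure ℝ), IsFiniteMeasure μ →
    (∀ z : ℂ, z.im ≠ 0 → (∫ x, ((x : ℂ) - z)⁻¹ ∂μ) =
      inner ℂ ψ (Ring.inverse (H - z • (1 : F →L[ℂ] F)) ψ)) →
    μ ⟂ₘ (volume : Measure ℝ)

/-- Almost surely `T + a ω` is purely singular, `ω` i.i.d. of law `ν`. -/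
def AlmostSurelySingular {ι : Type} (ν : Measure ℝ) [IsProbabilityMeasure ν] (T : Op ι)
    (a : ι → ℝ) : Prop :=
  ∀ᵐ ω ∂(Measure.infinitePi fun _ : ι => ν), ∀ H : Op ι, IsPerturbed T a ω H → PurelySingular H

/-- the leak of `B` at `x`: the root of the sum of `|T(x, y)|²` over all `y` outside `B` -/
noncomputable def leak {ι : Type} [DecidableEq ι] (T : Op ι) (B : Finset ι) (x : ι) : ℝ :=
  √(∑' y, if y ∈ B then 0 else ‖entry T x y‖ ^ 2)

/-- For every positive weight `w` tending to zero at infinity there are finite sets `B` containing a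
given site whose total cost is as small as we like; the cost of a site is its leak, or the smaller
one of its leak and its weight if the amplitude at the site is at least `a₀`. -/
def HasThinCuts {ι : Type} [DecidableEq ι] (T : Op ι) (a : ι → ℝ) (a₀ : ℝ) : Prop :=
  ∀ w : ι → ℝ, (∀ x, 0 < w x) → Tendsto w cofinite (𝓝 0) → ∀ o : ι, ∀ ε : ℝ, 0 < ε →
    ∃ B : Finset ι, o ∈ B ∧
      ∑ x ∈ B, (if a₀ ≤ |a x| then min (w x) (leak T B x) else leak T B x) ≤ ε

/-- `par` is the parent map of a locally finite tree on `V` with the root `root`. -/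
def IsRootedTree {V : Type} (root : V) (par : V → V) : Prop :=
  par root = root ∧ (∀ v, ∃ n : ℕ, par^[n] v = root) ∧ ∀ v, {u | par u = v}.Finite

/-- a ray of the tree, starting at the root -/
def IsRay {V : Type} (root : V) (par : V → V) (r : ℕ → V) : Prop :=
  r 0 = root ∧ ∀ n, par (r (n + 1)) = r n ∧ r (n + 1) ≠ root

/-- `T` joins only sites in equal or adjacent bags; the bags are finite; and each ray has
infinitely many bags with boundedly many sites, at all of which the amplitude is at least `a₀`. -/
def IsTreeLike {ι V : Type} [DecidableEq ι] (root : V) (par : V → V) (bag : ι → V) (T : Op ι)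
    (a : ι → ℝ) (a₀ : ℝ) : Prop :=
  (∀ v, {x | bag x = v}.Finite) ∧
  (∀ x y, entry T x y ≠ 0 → bag x = bag y ∨ par (bag x) = bag y ∨ par (bag y) = bag x) ∧
  ∀ r, IsRay root par r → ∃ m : ℕ, ∃ᶠ n in atTop,
    {x | bag x = r n}.encard ≤ m ∧ ∀ x, bag x = r n → a₀ ≤ |a x|

/-- The hopping along the line decays like the power `-α`; the kernel `k` bounds the hopping between
the lines. -/
def IsLongRange {Y : Type} [DecidableEq Y] {S : Set (ℤ × Y)} (k : Y → Y → ℝ) (α : ℝ)
    (T : Op S) : Prop :=
  ∀ x y : S, x ≠ y →
    ‖entry T x y‖ ≤ k x.1.2 y.1.2 * (1 + |(x.1.1 : ℝ) - y.1.1|) ^ (-α)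

/-- There are arbitrarily long blocks, arbitrarily far out, in which the amplitude is at least `a₀`
on any given finite set of lines. -/
def HasBlocks {Y : Type} {S : Set (ℤ × Y)} (a : S → ℝ) (a₀ : ℝ) : Prop :=
  ∀ (l : ℕ) (Y' : Finset Y), ∃ n : ℕ, l ≤ n ∧ ∀ x : S, n ≤ x.1.1.natAbs + l →
    x.1.1.natAbs ≤ n → x.1.2 ∈ Y' → a₀ ≤ |a x|

/-- **Theorem.** -/
theorem result (ν : Measure ℝ) [IsProbabilityMeasure ν] (hν : IsNoise ν) (a₀ : ℝ)
    (ha₀ : 0 < a₀) :
    (∀ (ι : Type) [Countable ι] [DecidableEq ι] (T : Op ι) (a : ι → ℝ), RealSymmetric T →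
      (∀ x, |a x| ≤ 1) → HasThinCuts T a a₀ → AlmostSurelySingular ν T a) ∧
    (∀ (ι V : Type) [Countable ι] [DecidableEq ι] (root : V) (par : V → V) (bag : ι → V)
      (T : Op ι) (a : ι → ℝ), RealSymmetric T → (∀ x, |a x| ≤ 1) → IsRootedTree root par →
      {r : ℕ → V | IsRay root par r}.Countable → IsTreeLike root par bag T a a₀ →
      AlmostSurelySingular ν T a) ∧
    (∀ (Y : Type) [Countable Y] [DecidableEq Y] (S : Set (ℤ × Y)) (k : Y → Y → ℝ) (α : ℝ)
      (T : Op S) (a : S → ℝ), RealSymmetric T → (∀ x, |a x| ≤ 1) → (∀ y y', 0 ≤ k y y') →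
      (Summable fun p : Y × Y => k p.1 p.2) → 3 / 2 < α → IsLongRange k α T → HasBlocks a a₀ →
      AlmostSurelySingular ν T a) := by
  obtain ⟨⟨K, hK⟩, hν⟩ := hν
  refine ⟨?_, ?_, ?_⟩
  · intro ι _ _ T a hT ha hthin
    refine Pool.Agent.Q291.SB.part_thin T hT a ha ha₀ ?_ ν K hK hν
    intro w hw hwt o ε hε
    obtain ⟨B, h1, h2⟩ := hthin w hw hwt o ε hε
    exact ⟨B, h1, h2⟩
  · intro ι V _ _ root par bag T a hT ha htree hcount hlike
    exact Pool.Agent.Q291.SB.part_tree bag T hT a ha ha₀ htree.1 htree.2.1 htree.2.2 hcount
      hlike.1 hlike.2.1 hlike.2.2 ν K hK hν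
  · intro Y _ _ S k α T a hT ha hk0 hk hα hdec hblocks
    exact Pool.Agent.Q291.SB.part_quasi k α S T a a₀ hk0 hk hα hT hdec ha ha₀ hblocks ν K hK hν

end Pool.Agent.Results.MP_562b47_mp.ThinCuts
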